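import Pool.Agent.VM.StmtsH

/-!
# CPL: completion of a Weyl sum modulo `u`
-/

set_option autoImplicit false

namespace Pool.Agent.VM.H14

open Pool.Agent.Helper69_Weyl (ee W ee_add ee_int ee_nat sum_ee_div ee_zero)
open Finset

/-- `e` of two numbers which differ by an integer -/
theorem ee_congr_int {x y : ℝ} (n : ℤ) (h : x = y + n) : ee x = ee y := by
  rw [h, ee_add, ee_int, mul_one]

/-- the sum over the residues in one class -/
theorem sum_class (u : ℕ) (hu : 1 ≤ u) (n : ℕ) (g : ℕ → ℂ) :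
    ∑ x ∈ range u, g x * (if (u : ℤ) ∣ ((x : ℤ) - (n : ℤ)) then (u : ℂ) else 0) =
      g (n % u) * (u : ℂ) := by
  rw [Finset.sum_eq_single (n % u)]
  · have h1 : (u : ℤ) ∣ (((n % u : ℕ) : ℤ) - (n : ℤ)) := by
      refine ⟨-((n / u : ℕ) : ℤ), ?_⟩
      have h2 := Nat.mod_add_div n u
      have h3 : ((n % u : ℕ) : ℤ) + (u : ℤ) * ((n / u : ℕ) : ℤ) = (n : ℤ) := by exact_mod_cast h2
      linarith
    rw [if_pos h1]
  · intro x hx hne
    rw [if_neg, mul_zero]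
    intro hd
    apply hne
    have hx' : x < u := Finset.mem_range.mp hx
    have h4 : (x : ℤ) ≡ (n : ℤ) [ZMOD (u : ℤ)] := by
      have h5 : (u : ℤ) ∣ ((n : ℤ) - (x : ℤ)) := by
        have h6 := (dvd_neg (α := ℤ)).mpr hd
        rwa [neg_sub] at h6
      exact (Int.modEq_iff_dvd).mpr h5
    have h7 : x ≡ n [MOD u] := (Int.natCast_modEq_iff).mp h4
    have h8 : x % u = n % u := h7
    rwa [Nat.mod_eq_of_lt hx'] at h8
  · intro hn
    exfalso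
    exact hn (Finset.mem_range.mpr (Nat.mod_lt n (by omega)))

/-- **CPL** -/
theorem cpl : CplStmt := by
  intro k N u b β ξ hu
  have hu0 : (u : ℝ) ≠ 0 := by
    have : (u : ℕ) ≠ 0 := by omega
    exact_mod_cast this
  have hterm : ∀ m ∈ range u, Sc k u b (m : ℤ) * W k N β (ξ - (m : ℝ) / (u : ℝ)) =
      ∑ n ∈ Icc 1 N, ∑ x ∈ range u,
        (ee ((b : ℝ) * (x : ℝ) ^ k / (u : ℝ)) * ee (β * (n : ℝ) ^ k + ξ * (n : ℝ))) *
          ee ((m : ℝ) / (u : ℝ) * (((x : ℤ) - (n : ℤ) : ℤ) : ℝ)) := by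
    intro m _
    unfold Sc W
    rw [Finset.sum_mul_sum, Finset.sum_comm]
    refine Finset.sum_congr rfl (fun n _ => Finset.sum_congr rfl (fun x _ => ?_))
    rw [← ee_add, ← ee_add, ← ee_add]
    congr 1
    push_cast
    field_simp
    ring
  rw [Finset.sum_congr rfl hterm, Finset.sum_comm]
  have hswap : ∀ n ∈ Icc 1 N, (∑ m ∈ range u, ∑ x ∈ range u,
        (ee ((b : ℝ) * (x : ℝ) ^ k / (u : ℝ)) * ee (β * (n : ℝ) ^ k + ξ * (n : ℝ))) *
          ee ((m : ℝ) / (u : ℝ) * (((x : ℤ) - (n : ℤ) : ℤ) : ℝ))) =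
      (u : ℂ) * ee (((b : ℝ) / (u : ℝ) + β) * (n : ℝ) ^ k + ξ * (n : ℝ)) := by
    intro n _
    rw [Finset.sum_comm]
    have h1 : ∀ x ∈ range u, (∑ m ∈ range u,
        (ee ((b : ℝ) * (x : ℝ) ^ k / (u : ℝ)) * ee (β * (n : ℝ) ^ k + ξ * (n : ℝ))) *
          ee ((m : ℝ) / (u : ℝ) * (((x : ℤ) - (n : ℤ) : ℤ) : ℝ))) =
        (ee ((b : ℝ) * (x : ℝ) ^ k / (u : ℝ)) * ee (β * (n : ℝ) ^ k + ξ * (n : ℝ))) *
          (if (u : ℤ) ∣ ((x : ℤ) - (n : ℤ)) then (u : ℂ) else 0) := by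
      intro x _
      rw [← Finset.mul_sum, sum_ee_div u (by omega)]
    rw [Finset.sum_congr rfl h1,
      sum_class u hu n (fun x => ee ((b : ℝ) * (x : ℝ) ^ k / (u : ℝ)) *
        ee (β * (n : ℝ) ^ k + ξ * (n : ℝ))), mul_comm (u : ℂ)]
    congr 1
    rw [← ee_add]
    have hpow : (n % u) ^ k ≡ n ^ k [MOD u] := (Nat.mod_modEq n u).pow k
    obtain ⟨c, hc⟩ := (Nat.modEq_iff_dvd).mp hpow
    have hc' : (n : ℝ) ^ k - ((n % u : ℕ) : ℝ) ^ k = (u : ℝ) * (c : ℝ) := by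
      have : ((((n ^ k : ℕ) : ℤ) - (((n % u) ^ k : ℕ) : ℤ) : ℤ) : ℝ) = (((u : ℤ) * c : ℤ) : ℝ) := by
        rw [hc]
      push_cast at this
      exact this
    refine ee_congr_int (-(b * c)) ?_
    have h9 : ((n % u : ℕ) : ℝ) ^ k = (n : ℝ) ^ k - (u : ℝ) * (c : ℝ) := by linarith
    rw [h9]
    push_cast
    field_simp
    ring
  rw [Finset.sum_congr rfl hswap, ← Finset.mul_sum]
  rfl

end Pool.Agent.VM.H14
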